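import Pool.Agent.Helper76.TC2.Goals

/-!
# Packet TC2-EX (MP_ccd65d_gt, project TC2 of helper76)
-/

set_option autoImplicit false

namespace Pool.Agent.Helper13.TC2.EX

open Pool.Agent.Helper76.TC2
open Pool.Agent.Helper76.TC (TorusMetric dd uu S_TM)

theorem adm_mono {n : ℕ} {d : (Fin n → ℝ) → (Fin n → ℝ) → ℝ} {L L' : ℝ} {x y : Fin n → ℝ}
    (h : L ≤ L') (hA : Adm n d L x y) : Adm n d L' x y := by
  intro η hη
  obtain ⟨k, z, h0, h1, h2, h3⟩ := hA η hη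
  exact ⟨k, z, h0, h1, h2, h3.trans h⟩

theorem t (hIB : S_IB) (hIN : S_IN) (hWD : S_WD) (hTV : S_TV2) (hTM : S_TM) : S_EX2 := by
  intro m ε hε
  have hT := hTM m ε hε
  have hB : Base (m + 3) (dd m ε) := ⟨hT.symm, hT.triangle, hT.periodic, hT.bilip⟩
  have hAdm : ∀ x y : Fin (m + 3) → ℝ,
      Adm (m + 3) (dd m ε) (ε * (46 * ‖x - y‖) + |uu m x - uu m y|) x y := fun x y =>
    hWD m ε _ _ x y hε.le (hTV m x y)
  have hQ : QC (m + 3) 46 (dd m ε) := by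
    intro x y
    refine adm_mono ?_ (hAdm x y)
    unfold dd
    have := abs_nonneg (uu m x - uu m y)
    linarith
  obtain ⟨p1, p2, -, p4⟩ := hIB (m + 3) 46 (dd m ε) hB hQ
  refine ⟨p4, hIN (m + 3) 46 (dd m ε) hB hQ, fun x y => ⟨p1 x y, ?_⟩⟩
  refine (p2 _ x y (hAdm x y)).trans (le_of_eq ?_)
  ring

end Pool.Agent.Helper13.TC2.EX
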